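import Mathlib

set_option autoImplicit false

namespace Pool.Agent.Lib.MP_b81b72_gt

open Cardinal Set

/-- A large set of complex numbers contains a number transcendental over a small set. -/
theorem exists_transcendental (S : Set ℂ) (hS : #S < 𝔠) (F : Set ℂ) (hF : 𝔠 ≤ #F) :
    ∃ z ∈ F, Transcendental (Algebra.adjoin ℤ S) z := by
  by_contra hcon
  push Not at hcon
  have h1 : F ⊆ {z : ℂ | IsAlgebraic (Algebra.adjoin ℤ S) z} := by
    intro z hz
    have := hcon z hz
    simpa [Transcendental] using this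
  have h2 : #F ≤ #{z : ℂ // IsAlgebraic (Algebra.adjoin ℤ S) z} := mk_le_mk_of_subset h1
  have h3 : #{z : ℂ // IsAlgebraic (Algebra.adjoin ℤ S) z} ≤ max #(Algebra.adjoin ℤ S) ℵ₀ :=
    Algebraic.cardinalMk_le_max _ _
  have h4 : #(Algebra.adjoin ℤ S) ≤ max (max #ℤ #S) ℵ₀ := Algebra.cardinalMk_adjoin_le ℤ S
  have h5 : max (max #ℤ #S) ℵ₀ < 𝔠 := by
    simp [hS, aleph0_lt_continuum]
  have h6 : max #(Algebra.adjoin ℤ S) ℵ₀ < 𝔠 :=
    max_lt (lt_of_le_of_lt h4 h5) aleph0_lt_continuum
  exact absurd (hF.trans (h2.trans h3)) (not_le.mpr h6)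

/-- Transfinite choice of an algebraically independent transversal of `𝔠` many large sets. -/
theorem exists_algebraicIndependent_transversal {ι : Type} (hι : #ι = 𝔠) (g : ι → Set ℂ)
    (hg : ∀ i, 𝔠 ≤ #(g i)) :
    ∃ w : ι → ℂ, AlgebraicIndependent ℤ w ∧ ∀ i, w i ∈ g i := by
  classical
  obtain ⟨_, hwfl, hr⟩ := Cardinal.exists_ord_eq_type_lt ι
  have hwf : WellFounded (fun a b : ι => a < b) := hwfl.wf
  let step : ∀ i : ι, (∀ j, j < i → ℂ) → ℂ := fun i f =>
    if h : ∃ z ∈ g i, Transcendental (Algebra.adjoin ℤ {z : ℂ | ∃ j, ∃ hj : j < i, z = f j hj}) z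
    then Classical.choose h else 0
  let w : ι → ℂ := hwf.fix step
  have hw : ∀ i, w i = step i (fun j _ => w j) := fun i => hwf.fix_eq step i
  have hset : ∀ i, {z : ℂ | ∃ j, ∃ _ : j < i, z = w j} = w '' Set.Iio i := by
    intro i
    ext z
    constructor
    · rintro ⟨j, hj, rfl⟩
      exact ⟨j, hj, rfl⟩
    · rintro ⟨j, hj, rfl⟩
      exact ⟨j, hj, rfl⟩
  have hcard : ∀ i, #(w '' Set.Iio i : Set ℂ) < 𝔠 := by
    intro i
    refine lt_of_le_of_lt mk_image_le ?_
    rw [← hι]
    exact Cardinal.mk_Iio_lt i hr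
  have key : ∀ i, w i ∈ g i ∧ Transcendental (Algebra.adjoin ℤ (w '' Set.Iio i)) (w i) := by
    intro i
    have hex : ∃ z ∈ g i,
        Transcendental (Algebra.adjoin ℤ {z : ℂ | ∃ j, ∃ _ : j < i, z = w j}) z := by
      rw [hset i]
      exact exists_transcendental _ (hcard i) _ (hg i)
    have h2 : w i = Classical.choose hex := by
      rw [hw i]
      exact dif_pos hex
    have h3 := Classical.choose_spec hex
    rw [← h2, hset i] at h3
    exact h3
  refine ⟨w, ?_, fun i => (key i).1⟩
  apply algebraicIndependent_of_finite_type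
  intro t ht
  have hfin : ∀ s : Finset ι, AlgebraicIndepOn ℤ w (s : Set ι) := by
    intro s
    induction s using Finset.induction_on_max with
    | empty =>
      have : IsEmpty ((∅ : Finset ι) : Set ι) := by simp
      apply (algebraicIndependent_empty_type_iff).mpr
      exact (algebraMap ℤ ℂ).injective_int
    | insert a s has ih =>
      rw [Finset.coe_insert]
      refine AlgebraicIndepOn.insert ih ?_
      intro halg
      refine (key a).2 ?_
      refine IsAlgebraic.tower_top_of_subalgebra_le (Algebra.adjoin_mono ?_) halg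
      apply Set.image_mono
      intro x hx
      exact has x hx
  have := hfin ht.toFinset
  rwa [ht.coe_toFinset] at this

end Pool.Agent.Lib.MP_b81b72_gt
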