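import Mathlib
import Pool.Agent.Lib.MP_b81b72_gt.Transversal

set_option autoImplicit false

namespace Pool.Agent.Lib.MP_b81b72_gt

open Cardinal Set

theorem mk_padicInt_le : #ℤ_[2] ≤ 𝔠 := by
  let F : ℤ_[2] → (∀ n : ℕ, ZMod (2 ^ n)) := fun x n => PadicInt.toZModPow n x
  have hF : Function.Injective F := by
    intro x y h
    exact PadicInt.ext_of_toZModPow.mp fun n => congrFun h n
  have h1 : #ℤ_[2] ≤ #(∀ n : ℕ, ZMod (2 ^ n)) := mk_le_of_injective hF
  refine h1.trans ?_
  rw [Cardinal.mk_pi]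
  calc Cardinal.prod (fun n : ℕ => #(ZMod (2 ^ n))) ≤ Cardinal.prod (fun _ : ℕ => ℵ₀) := by
        apply Cardinal.prod_le_prod
        intro n
        have : NeZero (2 ^ n) := ⟨by positivity⟩
        exact (Cardinal.mk_le_aleph0_iff.mpr inferInstance)
    _ = 𝔠 := by simp

theorem le_mk_padicInt : 𝔠 ≤ #ℤ_[2] := by
  have h := continuum_le_cardinal_of_isOpen (𝕜 := ℚ_[2]) (E := ℚ_[2])
    (s := Metric.ball (0 : ℚ_[2]) 1) Metric.isOpen_ball ⟨0, by simp⟩
  refine h.trans ?_
  refine mk_le_of_injective (f := fun x => (⟨x.1, ?_⟩ : ℤ_[2])) ?_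
  · have := x.2
    simp only [Metric.mem_ball, dist_zero_right] at this
    exact this.le
  · intro x y hxy
    exact Subtype.ext (congrArg (fun z : ℤ_[2] => (z : ℚ_[2])) hxy)

theorem mk_basis {s : Set ℤ_[2]} (hs : IsTranscendenceBasis ℤ ((↑) : s → ℤ_[2])) : #s = 𝔠 := by
  apply le_antisymm ((mk_subtype_le _).trans mk_padicInt_le)
  by_contra hcon
  push Not at hcon
  have halg : Algebra.IsAlgebraic (Algebra.adjoin ℤ (Set.range ((↑) : s → ℤ_[2]))) ℤ_[2] :=
    hs.isAlgebraic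
  rw [Subtype.range_coe] at halg
  have h3 : #ℤ_[2] ≤ max #(Algebra.adjoin ℤ s) ℵ₀ :=
    Algebra.IsAlgebraic.cardinalMk_le_max _ _
  have h4 : #(Algebra.adjoin ℤ s) ≤ max (max #ℤ #s) ℵ₀ := Algebra.cardinalMk_adjoin_le ℤ s
  have h5 : max (max #ℤ #s) ℵ₀ < 𝔠 := by
    simp [hcon, aleph0_lt_continuum]
  have h6 : max #(Algebra.adjoin ℤ s) ℵ₀ < 𝔠 :=
    max_lt (lt_of_le_of_lt h4 h5) aleph0_lt_continuum
  exact absurd (le_mk_padicInt.trans h3) (not_le.mpr h6)

/-- The family of closed subsets of the complex plane of size continuum. -/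
def BigClosed : Set (Set ℂ) := {F | IsClosed F ∧ 𝔠 ≤ #F}

theorem mk_bigClosed_le : #BigClosed ≤ 𝔠 := by
  obtain ⟨b, hbc, -, hb⟩ := TopologicalSpace.exists_countable_basis ℂ
  let f : BigClosed → Set b := fun F => {u | Disjoint (u : Set ℂ) F.1}
  have hf : Function.Injective f := by
    rintro ⟨F, hF⟩ ⟨G, hG⟩ h
    simp only [Subtype.mk.injEq]
    have key : ∀ F G : Set ℂ, IsClosed F → (∀ u : b, Disjoint (u : Set ℂ) F ↔ Disjoint (u : Set ℂ) G)
        → G ⊆ F := by
      intro F G hF hFG x hx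
      by_contra hxF
      obtain ⟨u, hu, hxu, huF⟩ := hb.exists_subset_of_mem_open (show x ∈ Fᶜ from hxF)
        hF.isOpen_compl
      have h1 : Disjoint u F := Set.disjoint_left.mpr fun y hy => huF hy
      have h2 : Disjoint u G := (hFG ⟨u, hu⟩).mp h1
      exact Set.disjoint_left.mp h2 hxu hx
    have h' : ∀ u : b, Disjoint (u : Set ℂ) F ↔ Disjoint (u : Set ℂ) G := by
      intro u
      have := congrArg (fun S : Set b => u ∈ S) h
      simpa [f] using this
    exact Set.Subset.antisymm (key G F hG.1 fun u => (h' u).symm) (key F G hF.1 h')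
  have h1 : #BigClosed ≤ #(Set b) := mk_le_of_injective hf
  refine h1.trans ?_
  rw [Cardinal.mk_set]
  have : #b ≤ ℵ₀ := Cardinal.le_aleph0_iff_set_countable.mpr hbc
  calc (2 : Cardinal) ^ #b ≤ 2 ^ ℵ₀ := Cardinal.power_le_power_left two_ne_zero this
    _ = 𝔠 := Cardinal.two_power_aleph0

theorem univ_mem_bigClosed : (Set.univ : Set ℂ) ∈ BigClosed := by
  refine ⟨isClosed_univ, ?_⟩
  rw [Cardinal.mk_univ, Cardinal.mk_complex]

/-- A ring embedding of the 2-adic integers into the complex numbers whose image meets every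
closed set of size continuum. -/
theorem exists_embedding : ∃ f : ℤ_[2] →+* ℂ, Function.Injective f ∧
    ∀ F : Set ℂ, IsClosed F → 𝔠 ≤ #F → ∃ x, f x ∈ F := by
  classical
  have : FaithfulSMul ℤ ℤ_[2] := by
    rw [faithfulSMul_iff_algebraMap_injective]
    exact (algebraMap ℤ ℤ_[2]).injective_int
  obtain ⟨s, hs⟩ := exists_isTranscendenceBasis ℤ ℤ_[2]
  have hcard : #s = 𝔠 := mk_basis hs
  have hle : #BigClosed ≤ #s := hcard ▸ mk_bigClosed_le
  obtain ⟨e⟩ : Nonempty (BigClosed ↪ s) := hle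
  have : Nonempty BigClosed := ⟨⟨_, univ_mem_bigClosed⟩⟩
  let g : s → BigClosed := Function.invFun e
  have hg : Function.Surjective g := Function.invFun_surjective e.injective
  obtain ⟨w, hw, hwg⟩ := exists_algebraicIndependent_transversal hcard (fun i => (g i).1)
    (fun i => (g i).2.2)
  let R := MvPolynomial s ℤ
  let algS : Algebra R ℤ_[2] := (MvPolynomial.aeval ((↑) : s → ℤ_[2])).toAlgebra
  let algC : Algebra R ℂ := (MvPolynomial.aeval w).toAlgebra
  have hinjS : Function.Injective (algebraMap R ℤ_[2]) :=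
    algebraicIndependent_iff_injective_aeval.mp hs.1
  have hinjC : Function.Injective (algebraMap R ℂ) :=
    algebraicIndependent_iff_injective_aeval.mp hw
  have : FaithfulSMul R ℤ_[2] := (faithfulSMul_iff_algebraMap_injective _ _).mpr hinjS
  have : FaithfulSMul R ℂ := (faithfulSMul_iff_algebraMap_injective _ _).mpr hinjC
  have halg : Algebra.IsAlgebraic R ℤ_[2] := by
    have h0 : Algebra.IsAlgebraic (Algebra.adjoin ℤ (Set.range ((↑) : s → ℤ_[2]))) ℤ_[2] :=
      hs.isAlgebraic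
    refine Algebra.IsAlgebraic.of_ringHom_of_comp_eq (S := Algebra.adjoin ℤ (Set.range ((↑) : s → ℤ_[2])))
      (B := ℤ_[2]) hs.1.aevalEquiv (RingHom.id ℤ_[2]) hs.1.aevalEquiv.surjective
      Function.injective_id ?_
    refine RingHom.ext fun r => ?_
    exact hs.1.algebraMap_aevalEquiv r
  let f : ℤ_[2] →ₐ[R] ℂ := IsAlgClosed.lift
  refine ⟨f.toRingHom, ?_, ?_⟩
  · rw [injective_iff_map_eq_zero]
    intro x hx
    by_contra hne
    obtain ⟨r, hr, y, hy⟩ := (halg.isAlgebraic x).exists_nonzero_dvd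
      (mem_nonZeroDivisors_of_ne_zero hne)
    have h1 : f (algebraMap R ℤ_[2] r) = 0 := by
      rw [hy, map_mul]
      change f x = 0 at hx
      rw [hx, zero_mul]
    rw [f.commutes] at h1
    exact hr ((map_eq_zero_iff _ hinjC).mp h1)
  · intro F hF hFc
    obtain ⟨i, hi⟩ := hg ⟨F, hF, hFc⟩
    refine ⟨(i : ℤ_[2]), ?_⟩
    have h1 : algebraMap R ℤ_[2] (MvPolynomial.X i) = (i : ℤ_[2]) := MvPolynomial.aeval_X _ _
    have h2 : algebraMap R ℂ (MvPolynomial.X i) = w i := MvPolynomial.aeval_X _ _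
    have h3 : f (i : ℤ_[2]) = w i := by
      rw [← h1, ← h2]
      exact f.commutes _
    change f (i : ℤ_[2]) ∈ F
    rw [h3]
    have := hwg i
    rw [hi] at this
    exact this

end Pool.Agent.Lib.MP_b81b72_gt
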