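import Mathlib
import Pool.Agent.Lib.MP_b81b72_gt.Embed

set_option autoImplicit false

namespace Pool.Agent.Lib.MP_b81b72_gt

open Cardinal Set

/-- Every additive endomorphism of the `2`-adic integers is multiplication by an element. -/
theorem endo_eq_mul (φ : ℤ_[2] →+ ℤ_[2]) (x : ℤ_[2]) : φ x = φ 1 * x := by
  have hcont : Continuous φ := by
    apply continuous_of_continuousAt_zero φ
    rw [ContinuousAt, map_zero, Metric.tendsto_nhds_nhds]
    intro ε hε
    obtain ⟨n, hn⟩ := PadicInt.exists_pow_neg_lt 2 hε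
    refine ⟨(2 : ℝ) ^ (-(n : ℤ)), by positivity, fun {y} hy => ?_⟩
    rw [dist_zero_right] at hy ⊢
    have hy' : ‖y‖ ≤ ((2 : ℕ) : ℝ) ^ (-(n : ℤ)) := by exact_mod_cast hy.le
    rw [PadicInt.norm_le_pow_iff_mem_span_pow, Ideal.mem_span_singleton] at hy'
    obtain ⟨z, rfl⟩ := hy'
    have h1 : φ ((2 : ℕ) ^ n * z) = (2 : ℕ) ^ n * φ z := by
      have h2 : ((2 : ℕ) : ℤ_[2]) ^ n * z = (2 ^ n : ℕ) • z := by
        rw [nsmul_eq_mul]; push_cast; ring
      rw [h2, map_nsmul, nsmul_eq_mul]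
      push_cast; ring
    have h2 : ‖φ ((2 : ℕ) ^ n * z)‖ ≤ ((2 : ℕ) : ℝ) ^ (-(n : ℤ)) := by
      rw [PadicInt.norm_le_pow_iff_mem_span_pow, Ideal.mem_span_singleton, h1]
      exact Dvd.intro _ rfl
    refine lt_of_le_of_lt h2 ?_
    exact_mod_cast hn
  have h : (fun y : ℤ_[2] => φ y) = fun y => φ 1 * y := by
    refine PadicInt.denseRange_intCast.equalizer hcont (by fun_prop) ?_
    ext n
    simp only [Function.comp_apply]
    have : φ ((n : ℤ) : ℤ_[2]) = φ (n • (1 : ℤ_[2])) := by simp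
    rw [this, map_zsmul, zsmul_eq_mul, mul_comm]
  exact congrFun h x

/-- A set of complex numbers meeting all big closed sets is dense. -/
theorem mem_of_isOpen {f : ℤ_[2] → ℂ}
    (hf : ∀ F : Set ℂ, IsClosed F → 𝔠 ≤ #F → ∃ x, f x ∈ F) (W : Set ℂ) (hW : IsOpen W)
    (hne : W.Nonempty) : ∃ x, f x ∈ W := by
  obtain ⟨z, hz⟩ := hne
  obtain ⟨ε, hε, hb⟩ := Metric.isOpen_iff.mp hW z hz
  obtain ⟨x, hx⟩ := hf (Metric.closedBall z (ε / 2)) Metric.isClosed_closedBall (by
    have h := continuum_le_cardinal_of_isOpen (𝕜 := ℂ) (E := ℂ)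
      (s := Metric.ball z (ε / 2)) Metric.isOpen_ball ⟨z, by simp [hε]⟩
    exact h.trans (mk_le_mk_of_subset Metric.ball_subset_closedBall))
  exact ⟨x, hb (lt_of_le_of_lt (Metric.mem_closedBall.mp hx) (half_lt_self hε))⟩

/-- The topology induced by an embedding meeting all big closed sets has no small clopen
neighbourhood of zero. -/
theorem no_small_clopen {f : ℤ_[2] → ℂ}
    (hf : ∀ F : Set ℂ, IsClosed F → 𝔠 ≤ #F → ∃ x, f x ∈ F)
    (h0 : f 0 = 0) (U : Set ℤ_[2]) (h0U : (0 : ℤ_[2]) ∈ U) (hU1 : ∀ x ∈ U, ‖f x‖ < 1)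
    (hUo : @IsOpen _ (TopologicalSpace.induced f inferInstance) U)
    (hUc : @IsOpen _ (TopologicalSpace.induced f inferInstance) Uᶜ) : False := by
  obtain ⟨W, hW, rfl⟩ := isOpen_induced_iff.mp hUo
  obtain ⟨W', hW', hWW'⟩ := isOpen_induced_iff.mp hUc
  have hdisj : W ∩ W' = ∅ := by
    by_contra hne
    obtain ⟨x, hx⟩ := mem_of_isOpen hf _ (hW.inter hW') (Set.nonempty_iff_ne_empty.mpr hne)
    have h1 : x ∈ f ⁻¹' W' := hx.2
    rw [hWW'] at h1
    exact h1 hx.1
  have hbig : ∀ z ∈ W, ‖z‖ ≤ 1 := by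
    intro z hz
    by_contra hcon
    push Not at hcon
    obtain ⟨x, hx⟩ := mem_of_isOpen hf (W ∩ {z | 1 < ‖z‖})
      (hW.inter (isOpen_lt continuous_const continuous_norm)) ⟨z, hz, hcon⟩
    exact absurd (hU1 x hx.1) (not_lt.mpr hx.2.le)
  have h0W : (0 : ℂ) ∈ W := by
    have : f 0 ∈ W := h0U
    rwa [h0] at this
  obtain ⟨ε, hε, hb⟩ := Metric.isOpen_iff.mp hW 0 h0W
  let F : Set ℂ := (W ∪ W')ᶜ
  have hFcl : IsClosed F := (hW.union hW').isClosed_compl
  have hFim : Set.Ioo 0 ε ⊆ Complex.im '' F := by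
    intro t ht
    by_contra hcon
    have hseg : IsPreconnected ((fun s : ℝ => (⟨s, t⟩ : ℂ)) '' Set.Icc 0 2) := by
      apply isPreconnected_Icc.image
      apply Continuous.continuousOn
      have : (fun s : ℝ => (⟨s, t⟩ : ℂ)) = fun s : ℝ => (s : ℂ) + t * Complex.I := by
        ext s
        exact Complex.mk_eq_add_mul_I s t
      rw [this]
      fun_prop
    have hsub : ((fun s : ℝ => (⟨s, t⟩ : ℂ)) '' Set.Icc 0 2) ⊆ W ∪ W' := by
      rintro _ ⟨s, hs, rfl⟩
      by_contra hn
      exact hcon ⟨⟨s, t⟩, hn, rfl⟩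
    have hstart : (⟨0, t⟩ : ℂ) ∈ W := by
      apply hb
      rw [Metric.mem_ball, dist_zero_right]
      have : (⟨0, t⟩ : ℂ) = t * Complex.I := by
        rw [Complex.mk_eq_add_mul_I]; simp
      rw [this]
      simp [abs_of_pos ht.1, ht.2]
    have hend : (⟨2, t⟩ : ℂ) ∈ W' := by
      have h1 : (⟨2, t⟩ : ℂ) ∈ W ∪ W' := hsub ⟨2, by simp, rfl⟩
      rcases h1 with h1 | h1
      · exfalso
        have h2 := hbig _ h1
        have h3 : |(⟨2, t⟩ : ℂ).re| ≤ ‖(⟨2, t⟩ : ℂ)‖ := Complex.abs_re_le_norm _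
        simp at h3
        linarith
      · exact h1
    obtain ⟨z, -, hz⟩ := hseg W W' hW hW' hsub
      ⟨_, ⟨0, by simp, rfl⟩, hstart⟩ ⟨_, ⟨2, by simp, rfl⟩, hend⟩
    rw [hdisj] at hz
    exact hz
  have hFc : 𝔠 ≤ #F := by
    have h1 : #(Set.Ioo 0 ε) ≤ #(Complex.im '' F : Set ℝ) := mk_le_mk_of_subset hFim
    rw [Cardinal.mk_Ioo_real hε] at h1
    exact h1.trans mk_image_le
  obtain ⟨x, hx⟩ := hf F hFcl hFc
  apply hx
  by_cases hxW : f x ∈ W
  · exact Or.inl hxW
  · right
    have : x ∈ (f ⁻¹' W)ᶜ := hxW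
    rw [← hWW'] at this
    exact this

/-- The functorial topology cogenerated by a topologized copy of the 2-adic integers. -/
noncomputable def T (f : ℤ_[2] →+* ℂ) (G : Type) [AddCommGroup G] : AddGroupTopology G where
  toTopologicalSpace :=
    ⨅ φ : G →+ ℤ_[2], TopologicalSpace.induced (fun x => f (φ x)) inferInstance
  toIsTopologicalAddGroup := by
    apply topologicalAddGroup_iInf
    intro φ
    exact topologicalAddGroup_induced (f.toAddMonoidHom.comp φ)

theorem T_functorial (f : ℤ_[2] →+* ℂ) (G H : Type) [AddCommGroup G] [AddCommGroup H]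
    (h : G →+ H) : @Continuous G H (T f G).toTopologicalSpace (T f H).toTopologicalSpace h := by
  change @Continuous G H (⨅ φ : G →+ ℤ_[2], _) (⨅ φ : H →+ ℤ_[2], _) h
  rw [continuous_iInf_rng]
  intro φ
  rw [continuous_induced_rng]
  refine continuous_iInf_dom (i := φ.comp h) ?_
  exact continuous_induced_dom

theorem T_padic (f : ℤ_[2] →+* ℂ) :
    (T f ℤ_[2]).toTopologicalSpace = TopologicalSpace.induced f inferInstance := by
  apply le_antisymm
  · exact iInf_le _ (AddMonoidHom.id ℤ_[2])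
  · refine le_iInf fun φ => ?_
    rw [← continuous_iff_le_induced]
    have : (fun x => f (φ x)) = fun x => f (φ 1) * f x := by
      ext x
      rw [endo_eq_mul φ x, map_mul]
    rw [this]
    let _ : TopologicalSpace ℤ_[2] := TopologicalSpace.induced f inferInstance
    have hc : @Continuous ℤ_[2] ℂ (TopologicalSpace.induced f inferInstance) _ f :=
      continuous_induced_dom
    exact continuous_const.mul hc

theorem main :
    ¬ (∀ T : ∀ (G : Type) [AddCommGroup G], AddGroupTopology G,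
      (∀ (G H : Type) [AddCommGroup G] [AddCommGroup H] (f : G →+ H),
        @Continuous G H (T G).toTopologicalSpace (T H).toTopologicalSpace f) →
      ∀ (G : Type) [AddCommGroup G], Infinite G →
        @T2Space G (T G).toTopologicalSpace →
        ∃ B : Set (Set G),
          @TopologicalSpace.IsTopologicalBasis G (T G).toTopologicalSpace B ∧
          ∀ s ∈ B, @IsClopen G (T G).toTopologicalSpace s) := by
  intro hall
  obtain ⟨f, hinj, hf⟩ := exists_embedding
  have h := hall (fun G _ => T f G) (fun G H _ _ φ => T_functorial f G H φ) ℤ_[2] inferInstance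
  have hT : (T f ℤ_[2]).toTopologicalSpace = TopologicalSpace.induced f inferInstance := T_padic f
  beta_reduce at h
  rw [hT] at h
  obtain ⟨B, hB, hBc⟩ := h (by
    let _ : TopologicalSpace ℤ_[2] := TopologicalSpace.induced f inferInstance
    exact T2Space.of_injective_continuous hinj continuous_induced_dom)
  obtain ⟨U, hUB, h0U, hU⟩ := @TopologicalSpace.IsTopologicalBasis.exists_subset_of_mem_open
    ℤ_[2] (TopologicalSpace.induced f inferInstance) B hB 0 (f ⁻¹' Metric.ball 0 1) (by simp)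
    (isOpen_induced Metric.isOpen_ball)
  have hcl := hBc U hUB
  refine no_small_clopen hf (map_zero f) U h0U ?_ ?_ ?_
  · intro x hx
    have := hU hx
    simpa using this
  · exact hcl.2
  · exact (@isOpen_compl_iff _ U (TopologicalSpace.induced f inferInstance)).mpr hcl.1

end Pool.Agent.Lib.MP_b81b72_gt
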