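import Mathlib
import Pool.Agent.Lib.MP_b81b72_gt.Topo

set_option autoImplicit false

namespace Pool.Agent.Lib.MP_b81b72_gt

open Cardinal Set

/-- If a set of complex numbers meets all big closed sets, then so does its trace on convex open
sets: the trace is connected. -/
theorem isPreconnected_preimage {f : ℤ_[2] → ℂ}
    (hf : ∀ F : Set ℂ, IsClosed F → 𝔠 ≤ #F → ∃ x, f x ∈ F) (D : Set ℂ) (hD : IsOpen D)
    (hconv : Convex ℝ D) :
    @IsPreconnected ℤ_[2] (TopologicalSpace.induced f inferInstance) (f ⁻¹' D) := by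
  intro U V hU hV hcov hneU hneV
  obtain ⟨W, hW, rfl⟩ := isOpen_induced_iff.mp hU
  obtain ⟨W', hW', rfl⟩ := isOpen_induced_iff.mp hV
  by_contra hcon
  rw [Set.not_nonempty_iff_eq_empty] at hcon
  have hdisj : D ∩ (W ∩ W') = ∅ := by
    by_contra hne
    obtain ⟨x, hx⟩ := mem_of_isOpen hf _ (hD.inter (hW.inter hW'))
      (Set.nonempty_iff_ne_empty.mpr hne)
    have : x ∈ f ⁻¹' D ∩ (f ⁻¹' W ∩ f ⁻¹' W') := hx
    rw [hcon] at this
    exact this
  obtain ⟨x, hxD, hxW⟩ := hneU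
  obtain ⟨y, hyD, hyW⟩ := hneV
  set a := f x with ha
  set b := f y with hb
  -- points `a + (s + t i)(b - a)`
  let g : ℂ → ℂ := fun w => a + w * (b - a)
  have hg : Continuous g := by fun_prop
  have hab : b - a ≠ 0 := by
    intro h
    have h1 : b = a := sub_eq_zero.mp h
    have h2 : a ∈ D ∩ (W ∩ W') := ⟨hxD, hxW, by rw [← h1]; exact hyW⟩
    rw [hdisj] at h2
    exact h2
  have ho : IsOpen {t : ℝ | g (⟨0, t⟩ : ℂ) ∈ D ∩ W ∧ g (⟨1, t⟩ : ℂ) ∈ D ∩ W'} := by
    have c0 : Continuous fun t : ℝ => g (⟨0, t⟩ : ℂ) := by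
      refine hg.comp ?_
      have : (fun t : ℝ => (⟨0, t⟩ : ℂ)) = fun t : ℝ => (t : ℂ) * Complex.I := by
        ext t
        rw [Complex.mk_eq_add_mul_I]; simp
      change Continuous fun t : ℝ => (⟨0, t⟩ : ℂ)
      rw [this]; fun_prop
    have c1 : Continuous fun t : ℝ => g (⟨1, t⟩ : ℂ) := by
      refine hg.comp ?_
      have : (fun t : ℝ => (⟨1, t⟩ : ℂ)) = fun t : ℝ => 1 + (t : ℂ) * Complex.I := by
        ext t
        rw [Complex.mk_eq_add_mul_I]; simp
      change Continuous fun t : ℝ => (⟨1, t⟩ : ℂ)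
      rw [this]; fun_prop
    exact ((hD.inter hW).preimage c0).inter ((hD.inter hW').preimage c1)
  have h0 : (0 : ℝ) ∈ {t : ℝ | g (⟨0, t⟩ : ℂ) ∈ D ∩ W ∧ g (⟨1, t⟩ : ℂ) ∈ D ∩ W'} := by
    have e0 : g (⟨0, 0⟩ : ℂ) = a := by
      have : (⟨0, 0⟩ : ℂ) = 0 := rfl
      simp [g, this]
    have e1 : g (⟨1, 0⟩ : ℂ) = b := by
      have : (⟨1, 0⟩ : ℂ) = 1 := rfl
      simp [g, this]
    change g (⟨0, 0⟩ : ℂ) ∈ D ∩ W ∧ g (⟨1, 0⟩ : ℂ) ∈ D ∩ W'
    rw [e0, e1]
    exact ⟨⟨hxD, hxW⟩, ⟨hyD, hyW⟩⟩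
  obtain ⟨ε, hε, hball⟩ := Metric.isOpen_iff.mp ho 0 h0
  have hends : ∀ t : ℝ, 0 ≤ t → t ≤ ε / 2 → g (⟨0, t⟩ : ℂ) ∈ D ∩ W ∧ g (⟨1, t⟩ : ℂ) ∈ D ∩ W' := by
    intro t ht0 ht1
    apply hball
    rw [Metric.mem_ball, dist_zero_right, Real.norm_eq_abs, abs_of_nonneg ht0]
    linarith
  -- the compact parallelogram
  let K : Set ℂ := g '' ((Set.Icc (0 : ℝ) 1) ×ℂ (Set.Icc (0 : ℝ) (ε / 2)))
  have hKc : IsClosed K := by
    have h1 : IsCompact ((Set.Icc (0 : ℝ) 1) ×ℂ (Set.Icc (0 : ℝ) (ε / 2))) :=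
      isCompact_Icc.reProdIm isCompact_Icc
    exact (h1.image hg).isClosed
  have hKD : K ⊆ D := by
    rintro _ ⟨w, hw, rfl⟩
    rw [Complex.mem_reProdIm] at hw
    have h1 := (hends w.im hw.2.1 hw.2.2).1.1
    have h2 := (hends w.im hw.2.1 hw.2.2).2.1
    have h3 := hconv h1 h2 (a := 1 - w.re) (b := w.re) (by linarith [hw.1.2]) hw.1.1 (by ring)
    convert h3 using 1
    apply Complex.ext <;> simp [g] <;> ring
  let F : Set ℂ := K ∩ (W ∪ W')ᶜ
  have hFcl : IsClosed F := hKc.inter (hW.union hW').isClosed_compl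
  have hFim : Set.Ioo 0 (ε / 2) ⊆ (fun z => ((z - a) / (b - a)).im) '' F := by
    intro t ht
    by_contra hcon'
    have hseg : IsPreconnected ((fun s : ℝ => g (⟨s, t⟩ : ℂ)) '' Set.Icc 0 1) := by
      apply isPreconnected_Icc.image
      apply Continuous.continuousOn
      refine hg.comp ?_
      have : (fun s : ℝ => (⟨s, t⟩ : ℂ)) = fun s : ℝ => (s : ℂ) + t * Complex.I := by
        ext s
        exact Complex.mk_eq_add_mul_I s t
      rw [this]
      fun_prop
    have hsubK : ((fun s : ℝ => g (⟨s, t⟩ : ℂ)) '' Set.Icc 0 1) ⊆ K := by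
      rintro _ ⟨s, hs, rfl⟩
      refine ⟨⟨s, t⟩, ?_, rfl⟩
      rw [Complex.mem_reProdIm]
      exact ⟨hs, ⟨ht.1.le, ht.2.le⟩⟩
    have hsub : ((fun s : ℝ => g (⟨s, t⟩ : ℂ)) '' Set.Icc 0 1) ⊆ W ∪ W' := by
      rintro _ ⟨s, hs, rfl⟩
      by_contra hn
      refine hcon' ⟨g ⟨s, t⟩, ⟨hsubK ⟨s, hs, rfl⟩, hn⟩, ?_⟩
      have : (g ⟨s, t⟩ - a) / (b - a) = ⟨s, t⟩ := by
        simp only [g]
        field_simp
        ring
      simp only [this]
    obtain ⟨z, hz1, hz2⟩ := hseg W W' hW hW' hsub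
      ⟨_, ⟨0, by simp, rfl⟩, (hends t ht.1.le ht.2.le).1.2⟩
      ⟨_, ⟨1, by simp, rfl⟩, (hends t ht.1.le ht.2.le).2.2⟩
    have : z ∈ D ∩ (W ∩ W') := ⟨hKD (hsubK hz1), hz2⟩
    rw [hdisj] at this
    exact this
  have hFc : 𝔠 ≤ #F := by
    have h1 : #(Set.Ioo 0 (ε / 2)) ≤ #((fun z => ((z - a) / (b - a)).im) '' F : Set ℝ) :=
      mk_le_mk_of_subset hFim
    rw [Cardinal.mk_Ioo_real (half_pos hε)] at h1
    exact h1.trans mk_image_le
  obtain ⟨z, hz⟩ := hf F hFcl hFc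
  exact hz.2 (hcov (show z ∈ f ⁻¹' D from hKD hz.1))

/-- The induced topology is connected. -/
theorem connected_induced {f : ℤ_[2] → ℂ}
    (hf : ∀ F : Set ℂ, IsClosed F → 𝔠 ≤ #F → ∃ x, f x ∈ F) :
    @ConnectedSpace ℤ_[2] (TopologicalSpace.induced f inferInstance) := by
  let _ : TopologicalSpace ℤ_[2] := TopologicalSpace.induced f inferInstance
  have h := isPreconnected_preimage hf Set.univ isOpen_univ convex_univ
  rw [Set.preimage_univ] at h
  have : @PreconnectedSpace ℤ_[2] (TopologicalSpace.induced f inferInstance) := ⟨h⟩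
  exact @ConnectedSpace.mk ℤ_[2] (TopologicalSpace.induced f inferInstance) this ⟨0⟩

/-- The induced topology is locally connected. -/
theorem locallyConnected_induced {f : ℤ_[2] → ℂ}
    (hf : ∀ F : Set ℂ, IsClosed F → 𝔠 ≤ #F → ∃ x, f x ∈ F) :
    @LocallyConnectedSpace ℤ_[2] (TopologicalSpace.induced f inferInstance) := by
  refine @locallyConnectedSpace_of_connected_bases ℤ_[2]
    (TopologicalSpace.induced f inferInstance) ℝ
    (fun x r => f ⁻¹' Metric.ball (f x) r) (fun _ r => 0 < r) ?_ ?_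
  · intro x
    rw [nhds_induced]
    exact Metric.nhds_basis_ball.comap f
  · intro x r _
    exact isPreconnected_preimage hf _ Metric.isOpen_ball (convex_ball _ _)

/-- The functorial topology cogenerated by a topologized copy of the 2-adic integers, on groups
in an arbitrary universe. -/
@[implicit_reducible]
noncomputable def TU.{u} (f : ℤ_[2] →+* ℂ) (G : Type u) [AddCommGroup G] : TopologicalSpace G :=
  ⨅ φ : G →+ ℤ_[2], TopologicalSpace.induced (fun x => f (φ x)) inferInstance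

theorem TU_group.{u} (f : ℤ_[2] →+* ℂ) (G : Type u) [AddCommGroup G] :
    @IsTopologicalAddGroup G (TU f G) _ := by
  apply topologicalAddGroup_iInf
  intro φ
  exact topologicalAddGroup_induced (f.toAddMonoidHom.comp φ)

theorem TU_functorial.{u} (f : ℤ_[2] →+* ℂ) (G H : Type u) [AddCommGroup G] [AddCommGroup H]
    (h : G →+ H) : @Continuous G H (TU f G) (TU f H) h := by
  change @Continuous G H (⨅ φ : G →+ ℤ_[2], _) (⨅ φ : H →+ ℤ_[2], _) h
  rw [continuous_iInf_rng]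
  intro φ
  rw [continuous_induced_rng]
  refine continuous_iInf_dom (i := φ.comp h) ?_
  exact continuous_induced_dom

/-- On a copy `G` of the 2-adic integers the topology `TU` is the one induced by `f`. -/
theorem TU_padic.{u} (f : ℤ_[2] →+* ℂ) (G : Type u) [AddCommGroup G] (e : G ≃+ ℤ_[2]) :
    TU f G = TopologicalSpace.induced (fun x => f (e x)) inferInstance := by
  apply le_antisymm
  · exact iInf_le _ (e : G →+ ℤ_[2])
  · refine le_iInf fun φ => ?_
    rw [← continuous_iff_le_induced]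
    have : (fun x => f (φ x)) = fun x => f (φ (e.symm 1)) * f (e x) := by
      ext x
      have h := endo_eq_mul (φ.comp (e.symm : ℤ_[2] →+ G)) (e x)
      simp only [AddMonoidHom.comp_apply, AddMonoidHom.coe_coe, AddEquiv.symm_apply_apply] at h
      rw [h, map_mul]
    rw [this]
    let _ : TopologicalSpace G := TopologicalSpace.induced (fun x => f (e x)) inferInstance
    have hc : Continuous (fun x => f (e x)) := continuous_induced_dom
    exact continuous_const.mul hc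

end Pool.Agent.Lib.MP_b81b72_gt
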